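import Pool.Agent.W819.EN.Stm

set_option autoImplicit false

/-! # EN-SEC1: the second moment method in one block -/

namespace Pool.Agent.W605.EN

open H974 Finset
open Pool.Agent.W819.EN

theorem ok2 : Ok P2 := fun _ => ⟨by norm_num [P2], by norm_num [P2]⟩

/-! ### Finite product measures -/

section General

variable {E : Type*} [DecidableEq E]

theorem Pr_forall {ι : Type*} [DecidableEq ι] (p : E → ℝ) (U : Finset E) (D : ι → Finset E)
    (B : ι → Finset E → Prop) (T : Finset ι)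
    (hD : ∀ t ∈ T, D t ⊆ U) (hdis : ∀ s ∈ T, ∀ t ∈ T, s ≠ t → Disjoint (D s) (D t))
    (hB : ∀ t ∈ T, ∀ F G, F ⊆ U → D t ⊆ G → (B t F ↔ B t (F ∩ G))) :
    Pr p U (fun F => ∀ t ∈ T, B t F) = ∏ t ∈ T, Pr p U (B t) := by
  induction T using Finset.induction_on with
  | empty =>
    rw [Finset.prod_empty]
    exact Pr_true U (fun F _ t ht => absurd ht (Finset.notMem_empty t))
  | insert a T ha ih =>
    rw [Finset.prod_insert ha, ← ih (fun t ht => hD t (Finset.mem_insert_of_mem ht))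
      (fun s hs t ht => hdis s (Finset.mem_insert_of_mem hs) t (Finset.mem_insert_of_mem ht))
      (fun t ht => hB t (Finset.mem_insert_of_mem ht))]
    rw [← Pr_indep (p := p) (U := U) (S := D a) (T := T.biUnion D)
      (A := B a) (B := fun F => ∀ t ∈ T, B t F)
      (hD a (Finset.mem_insert_self a T))
      (Finset.biUnion_subset.2 fun t ht => hD t (Finset.mem_insert_of_mem ht))
      ((Finset.disjoint_biUnion_right _ _ _).2 fun t ht => hdis a (Finset.mem_insert_self a T) t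
        (Finset.mem_insert_of_mem ht) (fun h => ha (h ▸ ht)))
      (fun F hF => hB a (Finset.mem_insert_self a T) F _ hF (Finset.Subset.refl _))
      (fun F hF => forall₂_congr fun t ht => hB t (Finset.mem_insert_of_mem ht) F _ hF
        (Finset.subset_biUnion_of_mem D ht))]
    apply Pr_congr
    intro F _
    rw [Finset.forall_mem_insert]

/-- Paley–Zygmund -/
theorem paley (p : E → ℝ) (hp : Ok p) (U : Finset E) (Z : Finset E → ℝ) (m K : ℝ) (hm : 0 < m)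
    (hK : 0 < K) (h1 : m ≤ Ex p U Z) (h2 : Ex p U (fun F => Z F ^ 2) ≤ K * m ^ 2) :
    1 / (4 * K) ≤ Pr p U (fun F => m / 2 ≤ Z F) := by
  have hs : 0 < K * m := mul_pos hK hm
  have hpt : ∀ F, F ⊆ U → Z F ≤ m / 2 + (1 / (4 * (K * m))) * Z F ^ 2
      + (K * m) * ind (m / 2 ≤ Z F) := by
    intro F _
    by_cases h : m / 2 ≤ Z F
    · rw [ind_of h]
      have h3 : 0 ≤ (1 / (4 * (K * m))) * (Z F - 2 * (K * m)) ^ 2 := by positivity
      have h4 : (1 / (4 * (K * m))) * (Z F - 2 * (K * m)) ^ 2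
          = (1 / (4 * (K * m))) * Z F ^ 2 - Z F + K * m := by
        field_simp
        ring
      nlinarith
    · rw [ind_not_of h]
      have h3 : 0 ≤ (1 / (4 * (K * m))) * Z F ^ 2 := by positivity
      push Not at h
      linarith
  have h3 := Ex_mono hp hpt
  have h4 : Ex p U (fun F => m / 2 + (1 / (4 * (K * m))) * Z F ^ 2
      + (K * m) * ind (m / 2 ≤ Z F)) = m / 2 + (1 / (4 * (K * m))) * Ex p U (fun F => Z F ^ 2)
        + (K * m) * Pr p U (fun F => m / 2 ≤ Z F) := by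
    rw [Ex_add, Ex_add, Ex_const, Ex_mul_left, Ex_mul_left]
    rfl
  rw [h4] at h3
  have h5 : (1 / (4 * (K * m))) * Ex p U (fun F => Z F ^ 2) ≤ m / 4 := by
    have : (1 / (4 * (K * m))) * Ex p U (fun F => Z F ^ 2)
        ≤ (1 / (4 * (K * m))) * (K * m ^ 2) := mul_le_mul_of_nonneg_left h2 (by positivity)
    have h6 : (1 / (4 * (K * m))) * (K * m ^ 2) = m / 4 := by
      field_simp
    linarith
  have h6 : m / 4 ≤ (K * m) * Pr p U (fun F => m / 2 ≤ Z F) := by linarith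
  rw [div_le_iff₀ (by positivity)]
  have h7 : m * 1 ≤ m * (Pr p U (fun F => m / 2 ≤ Z F) * (4 * K)) := by nlinarith
  exact le_of_mul_le_mul_left h7 hm

end General

/-! ### Geometry of boxes -/

theorem mem_bx_true {v : Vtx} {k x y : ℤ} : ((x, y, true) : Edg) ∈ bx v k ↔
    v.1 - k ≤ x ∧ x < v.1 + k ∧ v.2 - k ≤ y ∧ y ≤ v.2 + k := mem_RE_true

theorem mem_bx_false {v : Vtx} {k x y : ℤ} : ((x, y, false) : Edg) ∈ bx v k ↔
    v.1 - k ≤ x ∧ x ≤ v.1 + k ∧ v.2 - k ≤ y ∧ y < v.2 + k := mem_RE_false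

theorem bx_sub {v w : Vtx} {k l : ℤ} (h1 : |v.1 - w.1| + k ≤ l) (h2 : |v.2 - w.2| + k ≤ l) :
    bx v k ⊆ bx w l := by
  have a1 := abs_le.1 (le_sub_iff_add_le.2 h1)
  have a2 := abs_le.1 (le_sub_iff_add_le.2 h2)
  rintro ⟨x, y, _ | _⟩ h
  · rw [mem_bx_false] at h ⊢; omega
  · rw [mem_bx_true] at h ⊢; omega

theorem bx_mono (v : Vtx) {k l : ℤ} (h : k ≤ l) : bx v k ⊆ bx v l :=
  bx_sub (by simpa using h) (by simpa using h)

theorem bx_disj {v w : Vtx} {k : ℤ} (h : 2 * k < |v.1 - w.1| ∨ 2 * k < |v.2 - w.2|) :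
    Disjoint (bx v k) (bx w k) := by
  rw [Finset.disjoint_left]
  rintro ⟨x, y, _ | _⟩ h1 h2
  · rw [mem_bx_false] at h1 h2
    rcases h with h | h
    · rcases abs_cases (v.1 - w.1) with h3 | h3 <;> omega
    · rcases abs_cases (v.2 - w.2) with h3 | h3 <;> omega
  · rw [mem_bx_true] at h1 h2
    rcases h with h | h
    · rcases abs_cases (v.1 - w.1) with h3 | h3 <;> omega
    · rcases abs_cases (v.2 - w.2) with h3 | h3 <;> omega

theorem trl_bx (v : Vtx) (k : ℤ) : (trl v.1 v.2).mp (bx (0, 0) k) = bx v k := by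
  unfold bx
  rw [trl_RE]
  congr 1 <;> ring

theorem an_sub (v : Vtx) (r R : ℕ) : an v r R ⊆ bx v R := Finset.sdiff_subset

/-! ### The events of the annuli -/

/-- the event of the annulus number `j` around `v` -/
def Ev (N : Finset Edg → Vtx → ℕ → ℕ → ℕ) (b : ℕ) (Q : ℕ → Set ℕ) (v : Vtx) (j : ℕ)
    (F : Finset Edg) : Prop := N F v (rj b j) (Rj b j) ∈ Q j

/-- the probability of the event of the annulus number `j` -/
noncomputable def pj (N : Finset Edg → Vtx → ℕ → ℕ → ℕ) (b : ℕ) (Q : ℕ → Set ℕ) (j : ℕ) : ℝ :=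
  Pr P2 (bx (0, 0) (Rj b j)) (fun F => N F (0, 0) (rj b j) (Rj b j) ∈ Q j)

variable {N : Finset Edg → Vtx → ℕ → ℕ → ℕ} {b : ℕ}

theorem rj_le_Rj (hb : 2 ≤ b) (j : ℕ) : rj b j ≤ Rj b j := by
  unfold rj Rj
  split_ifs
  · exact Nat.zero_le _
  · rw [pow_succ]
    have : 0 < b ^ j := pow_pos (by omega) j
    nlinarith

theorem Rj_le (hb : 2 ≤ b) {j i : ℕ} (h : j < i) : (Rj b j : ℤ) ≤ 2 * (b : ℤ) ^ i := by
  unfold Rj
  have h1 : b ^ (j + 1) ≤ b ^ i := Nat.pow_le_pow_right (by omega) h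
  have h2 : ((b ^ (j + 1) : ℕ) : ℤ) ≤ ((b ^ i : ℕ) : ℤ) := by exact_mod_cast h1
  push_cast at h2 ⊢
  linarith

theorem rj_ge (hb : 2 ≤ b) {j i : ℕ} (hi : 1 ≤ i) (h : i ≤ j) : 4 * (b : ℤ) ^ i ≤ (rj b j : ℤ) := by
  unfold rj
  rw [if_neg (by omega)]
  have h1 : b ^ i ≤ b ^ j := Nat.pow_le_pow_right (by omega) h
  have h2 : ((b ^ i : ℕ) : ℤ) ≤ ((b ^ j : ℕ) : ℤ) := by exact_mod_cast h1
  push_cast at h2 ⊢
  linarith

theorem Ev_loc (hG : Geo N) (hb : 2 ≤ b) (Q : ℕ → Set ℕ) (v : Vtx) (j : ℕ) (F G : Finset Edg)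
    (h : an v (rj b j) (Rj b j) ⊆ G) : Ev N b Q v j F ↔ Ev N b Q v j (F ∩ G) := by
  unfold Ev
  rw [hG.loc F v _ _ (rj_le_Rj hb j), hG.loc (F ∩ G) v _ _ (rj_le_Rj hb j), Finset.inter_assoc,
    Finset.inter_eq_right.2 h]

theorem Pr_Ev (hG : Geo N) (hb : 2 ≤ b) (Q : ℕ → Set ℕ) (v : Vtx) (j : ℕ) (S : Finset Edg)
    (hS : bx v (Rj b j) ⊆ S) : Pr P2 S (Ev N b Q v j) = pj N b Q j := by
  rw [Pr_local hS (fun F _ => Ev_loc hG hb Q v j F _ (an_sub v _ _)), ← trl_bx v]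
  refine (LSym.pr _ _ _ _).trans ?_
  apply Pr_congr
  intro F _
  unfold Ev
  have h := hG.tr F v (0, 0) (rj b j) (Rj b j)
  simp only [zero_add] at h
  rw [← h]

theorem pj_nonneg (b : ℕ) (Q : ℕ → Set ℕ) (j : ℕ) : 0 ≤ pj N b Q j := Pr_nonneg ok2 _ _

theorem an_disj (hb : 2 ≤ b) (v : Vtx) {j j' : ℕ} (h : j < j') :
    Disjoint (an v (rj b j) (Rj b j)) (an v (rj b j') (Rj b j')) := by
  have h1 : (Rj b j : ℤ) ≤ (rj b j' : ℤ) - 1 := by
    have h2 := Rj_le hb h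
    have h3 := rj_ge hb (by omega : 1 ≤ j') (le_refl j')
    have h4 : (0 : ℤ) < (b : ℤ) ^ j' := by positivity
    linarith
  rw [Finset.disjoint_left]
  intro e he he'
  exact (Finset.mem_sdiff.1 he').2 (bx_mono v h1 (an_sub v _ _ he))

/-- the probability of the events of two vertices -/
theorem two_point (hG : Geo N) {J : ℕ} (hb : 2 ≤ b) (Q : ℕ → Set ℕ) (S : Finset Edg)
    (v w : Vtx) (hv : bx v (2 * (b : ℤ) ^ J) ⊆ S) (hw : bx w (2 * (b : ℤ) ^ J) ⊆ S) (i : ℕ)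
    (hiJ : i < J) (h1 : |v.1 - w.1| ≤ 4 * (b : ℤ) ^ (i + 1))
    (h2 : |v.2 - w.2| ≤ 4 * (b : ℤ) ^ (i + 1))
    (h3 : i = 0 ∨ (4 * (b : ℤ) ^ i < |v.1 - w.1| ∨ 4 * (b : ℤ) ^ i < |v.2 - w.2|)) :
    Pr P2 S (fun F => Gd N b J Q v F ∧ Gd N b J Q w F) ≤
      (∏ j ∈ range i ∪ Ico (i + 2) J, pj N b Q j) * ∏ j ∈ range i, pj N b Q j := by
  classical
  have hvS : ∀ j < J, bx v (Rj b j) ⊆ S := fun j hj => (bx_mono v (Rj_le hb hj)).trans hv
  have hwS : ∀ j < J, bx w (Rj b j) ⊆ S := fun j hj => (bx_mono w (Rj_le hb hj)).trans hw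
  have hlt : ∀ j ∈ range i ∪ Ico (i + 2) J, j < J := by
    intro j hj
    rcases Finset.mem_union.1 hj with h | h
    · exact lt_trans (Finset.mem_range.1 h) hiJ
    · exact (Finset.mem_Ico.1 h).2
  have hlt' : ∀ j ∈ range i, j < J := fun j hj => lt_trans (Finset.mem_range.1 hj) hiJ
  have hVW : ∀ j ∈ range i ∪ Ico (i + 2) J, ∀ j' ∈ range i,
      Disjoint (an v (rj b j) (Rj b j)) (an w (rj b j') (Rj b j')) := by
    intro j hj j' hj'
    rw [Finset.mem_range] at hj'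
    rcases Finset.mem_union.1 hj with h | h
    · rw [Finset.mem_range] at h
      have h4 : Disjoint (bx v (2 * (b : ℤ) ^ i)) (bx w (2 * (b : ℤ) ^ i)) := by
        apply bx_disj
        rcases h3 with h3 | h3 | h3
        · omega
        · left; linarith
        · right; linarith
      exact Finset.disjoint_of_subset_left ((an_sub v _ _).trans (bx_mono v (Rj_le hb h)))
        (Finset.disjoint_of_subset_right ((an_sub w _ _).trans (bx_mono w (Rj_le hb hj'))) h4)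
    · rw [Finset.mem_Ico] at h
      have h4 : an w (rj b j') (Rj b j') ⊆ bx v ((rj b j : ℤ) - 1) := by
        have h5 := rj_ge hb (by omega : 1 ≤ i + 2) h.1
        have h6 := Rj_le hb hj'
        have h7 : (0 : ℤ) < (b : ℤ) ^ i := by positivity
        have h8 : (2 : ℤ) ≤ b := by exact_mod_cast hb
        have h9 : 2 * (b : ℤ) ^ i ≤ (b : ℤ) ^ (i + 1) := by
          rw [pow_succ]; nlinarith
        have h10 : 2 * (b : ℤ) ^ (i + 1) ≤ (b : ℤ) ^ (i + 2) := by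
          rw [pow_succ _ (i + 1)]; nlinarith
        refine (an_sub w _ _).trans (bx_sub ?_ ?_)
        · rw [abs_sub_comm]; linarith
        · rw [abs_sub_comm]; linarith
      rw [Finset.disjoint_left]
      intro e he he'
      exact (Finset.mem_sdiff.1 he).2 (h4 he')
  let D : ℕ ⊕ ℕ → Finset Edg := Sum.elim (fun j => an v (rj b j) (Rj b j))
    (fun j => an w (rj b j) (Rj b j))
  let B : ℕ ⊕ ℕ → Finset Edg → Prop := Sum.elim (fun j => Ev N b Q v j) (fun j => Ev N b Q w j)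
  have hmain := Pr_forall P2 S D B ((range i ∪ Ico (i + 2) J).disjSum (range i))
    (by
      rintro (j | j) hj
      · rw [Finset.inl_mem_disjSum] at hj
        exact (an_sub v _ _).trans (hvS j (hlt j hj))
      · rw [Finset.inr_mem_disjSum] at hj
        exact (an_sub w _ _).trans (hwS j (hlt' j hj)))
    (by
      rintro (j | j) hj (j' | j') hj' hne
      · have hne' : j ≠ j' := fun h => hne (by rw [h])
        rcases lt_or_gt_of_ne hne' with h | h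
        · exact an_disj hb v h
        · exact (an_disj hb v h).symm
      · rw [Finset.inl_mem_disjSum] at hj
        rw [Finset.inr_mem_disjSum] at hj'
        exact hVW j hj j' hj'
      · rw [Finset.inr_mem_disjSum] at hj
        rw [Finset.inl_mem_disjSum] at hj'
        exact (hVW j' hj' j hj).symm
      · have hne' : j ≠ j' := fun h => hne (by rw [h])
        rcases lt_or_gt_of_ne hne' with h | h
        · exact an_disj hb w h
        · exact (an_disj hb w h).symm)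
    (by
      rintro (j | j) hj F G _ hG'
      · exact Ev_loc hG hb Q v j F G hG'
      · exact Ev_loc hG hb Q w j F G hG')
  rw [Finset.prod_disjSum] at hmain
  have e1 : ∏ j ∈ range i ∪ Ico (i + 2) J, Pr P2 S (B (Sum.inl j))
      = ∏ j ∈ range i ∪ Ico (i + 2) J, pj N b Q j :=
    Finset.prod_congr rfl fun j hj => Pr_Ev hG hb Q v j S (hvS j (hlt j hj))
  have e2 : ∏ j ∈ range i, Pr P2 S (B (Sum.inr j)) = ∏ j ∈ range i, pj N b Q j :=
    Finset.prod_congr rfl fun j hj => Pr_Ev hG hb Q w j S (hwS j (hlt' j hj))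
  rw [e1, e2] at hmain
  rw [← hmain]
  apply Pr_mono ok2
  rintro F _ ⟨hF1, hF2⟩ (j | j) hj
  · rw [Finset.inl_mem_disjSum] at hj
    exact hF1 j (hlt j hj)
  · rw [Finset.inr_mem_disjSum] at hj
    exact hF2 j (hlt' j hj)

/-- the probability of the event of one vertex -/
theorem one_point (hG : Geo N) {J : ℕ} (hb : 2 ≤ b) (Q : ℕ → Set ℕ) (S : Finset Edg)
    (v : Vtx) (hv : bx v (2 * (b : ℤ) ^ J) ⊆ S) :
    Pr P2 S (fun F => Gd N b J Q v F) = ∏ j ∈ range J, pj N b Q j := by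
  classical
  have hvS : ∀ j < J, bx v (Rj b j) ⊆ S := fun j hj => (bx_mono v (Rj_le hb hj)).trans hv
  have hmain := Pr_forall P2 S (fun j => an v (rj b j) (Rj b j)) (fun j => Ev N b Q v j) (range J)
    (fun j hj => (an_sub v _ _).trans (hvS j (Finset.mem_range.1 hj)))
    (fun j _ j' _ hne => by
      rcases lt_or_gt_of_ne hne with h | h
      · exact an_disj hb v h
      · exact (an_disj hb v h).symm)
    (fun j _ F G _ hG' => Ev_loc hG hb Q v j F G hG')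
  rw [Finset.prod_congr rfl fun j hj => Pr_Ev hG hb Q v j S (hvS j (Finset.mem_range.1 hj))]
    at hmain
  rw [← hmain]
  apply Pr_congr
  intro F _
  unfold Gd Ev
  simp only [Finset.mem_range]

/-! ### Products -/

theorem prod_step {p : ℕ → ℝ} {c : ℝ} {J : ℕ} (hc : 1 ≤ c) (hp0 : ∀ j, 0 ≤ p j)
    (hp : ∀ j < J, 1 ≤ c * p j) (i : ℕ) :
    ∏ j ∈ Ico (i + 1) J, p j ≤ c * ∏ j ∈ Ico i J, p j := by
  by_cases h : i < J
  · rw [Finset.prod_eq_prod_Ico_succ_bot h]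
    have h1 : 0 ≤ ∏ j ∈ Ico (i + 1) J, p j := Finset.prod_nonneg fun j _ => hp0 j
    nlinarith [hp i h]
  · rw [Finset.Ico_eq_empty (by omega), Finset.Ico_eq_empty (by omega)]
    simpa using hc

theorem prod_one {p : ℕ → ℝ} {c : ℝ} {J : ℕ} (hp : ∀ j < J, 1 ≤ c * p j) (i : ℕ) :
    1 ≤ c ^ (J - i) * ∏ j ∈ Ico i J, p j := by
  have h1 : c ^ (J - i) * ∏ j ∈ Ico i J, p j = ∏ j ∈ Ico i J, (c * p j) := by
    rw [Finset.prod_mul_distrib, Finset.prod_const, Nat.card_Ico]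
  rw [h1]
  have h2 := Finset.prod_le_prod (s := Ico i J) (f := fun _ => (1 : ℝ)) (g := fun j => c * p j)
    (fun _ _ => zero_le_one) (fun j hj => hp j (Finset.mem_Ico.1 hj).2)
  simpa using h2

theorem prod_bound {p : ℕ → ℝ} {c : ℝ} {J : ℕ} (hc : 1 ≤ c) (hp0 : ∀ j, 0 ≤ p j)
    (hp : ∀ j < J, 1 ≤ c * p j) (i : ℕ) (hi : i < J) :
    (∏ j ∈ range i ∪ Ico (i + 2) J, p j) * ∏ j ∈ range i, p j ≤
      (∏ j ∈ range J, p j) ^ 2 * (c ^ (J - i) * c ^ 2) := by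
  have hdis : Disjoint (range i) (Ico (i + 2) J) := by
    rw [Finset.disjoint_left]
    intro j h1 h2
    rw [Finset.mem_range] at h1
    rw [Finset.mem_Ico] at h2
    omega
  rw [Finset.prod_union hdis]
  have hP : ∏ j ∈ range J, p j = (∏ j ∈ range i, p j) * ∏ j ∈ Ico i J, p j :=
    (Finset.prod_range_mul_prod_Ico p hi.le).symm
  rw [hP]
  set a := ∏ j ∈ range i, p j with ha
  set f := ∏ j ∈ Ico i J, p j with hf
  set f2 := ∏ j ∈ Ico (i + 2) J, p j with hf2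
  have ha0 : 0 ≤ a := Finset.prod_nonneg fun j _ => hp0 j
  have hf0 : 0 ≤ f := Finset.prod_nonneg fun j _ => hp0 j
  have h1 : 1 ≤ c ^ (J - i) * f := prod_one hp i
  have h2 : f2 ≤ c * (c * f) := (prod_step hc hp0 hp (i + 1)).trans
    (mul_le_mul_of_nonneg_left (prod_step hc hp0 hp i) (by linarith))
  have h3 : c * (c * f) ≤ c * (c * f) * (c ^ (J - i) * f) :=
    le_mul_of_one_le_right (by positivity) h1
  calc a * f2 * a = a ^ 2 * f2 := by ring
    _ ≤ a ^ 2 * (c * (c * f) * (c ^ (J - i) * f)) :=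
        mul_le_mul_of_nonneg_left (h2.trans h3) (by positivity)
    _ = (a * f) ^ 2 * (c ^ (J - i) * c ^ 2) := by ring

/-! ### The block -/

theorem blk_mem {b J : ℕ} {v : Vtx} : v ∈ blk b J ↔
    (0 ≤ v.1 ∧ v.1 < (b : ℤ) ^ J) ∧ (0 ≤ v.2 ∧ v.2 < (b : ℤ) ^ J) := by
  unfold blk
  rw [Finset.mem_product, Finset.mem_Ico, Finset.mem_Ico]

theorem blk_card (b J : ℕ) : ((blk b J).card : ℝ) = ((b : ℝ) ^ J) ^ 2 := by
  unfold blk
  rw [Finset.card_product, Int.card_Ico]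
  have h : ((b : ℤ) ^ J - 0).toNat = b ^ J := by
    rw [sub_zero]
    have : (b : ℤ) ^ J = ((b ^ J : ℕ) : ℤ) := by push_cast; rfl
    rw [this, Int.toNat_natCast]
  rw [h]
  push_cast
  ring

theorem exists_scale {J : ℕ} (hJ : 1 ≤ J) {v w : Vtx} (hv : v ∈ blk b J)
    (hw : w ∈ blk b J) :
    ∃ i < J, |v.1 - w.1| ≤ 4 * (b : ℤ) ^ (i + 1) ∧ |v.2 - w.2| ≤ 4 * (b : ℤ) ^ (i + 1) ∧
      (i = 0 ∨ (4 * (b : ℤ) ^ i < |v.1 - w.1| ∨ 4 * (b : ℤ) ^ i < |v.2 - w.2|)) := by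
  classical
  rw [blk_mem] at hv hw
  have hex0 : |v.1 - w.1| ≤ 4 * (b : ℤ) ^ (J - 1 + 1) ∧ |v.2 - w.2| ≤ 4 * (b : ℤ) ^ (J - 1 + 1) := by
    rw [Nat.sub_add_cancel hJ]
    constructor
    · rw [abs_le]; constructor <;> linarith [hv.1.1, hv.1.2, hw.1.1, hw.1.2]
    · rw [abs_le]; constructor <;> linarith [hv.2.1, hv.2.2, hw.2.1, hw.2.2]
  have hex : ∃ i, |v.1 - w.1| ≤ 4 * (b : ℤ) ^ (i + 1) ∧ |v.2 - w.2| ≤ 4 * (b : ℤ) ^ (i + 1) :=
    ⟨J - 1, hex0⟩
  refine ⟨Nat.find hex, ?_, (Nat.find_spec hex).1, (Nat.find_spec hex).2, ?_⟩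
  · have := Nat.find_min' hex hex0
    omega
  · rcases Nat.eq_zero_or_pos (Nat.find hex) with h | h
    · exact Or.inl h
    · right
      have h4 := Nat.find_min hex (m := Nat.find hex - 1) (by omega)
      rw [Nat.sub_add_cancel h] at h4
      by_contra hcon
      push Not at hcon
      exact h4 hcon

/-- two vertices at distance at most `4 b ^ (i + 1)` -/
def Near (b : ℕ) (v w : Vtx) (i : ℕ) : Prop :=
  |v.1 - w.1| ≤ 4 * (b : ℤ) ^ (i + 1) ∧ |v.2 - w.2| ≤ 4 * (b : ℤ) ^ (i + 1)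

theorem near_sum (hb : 2 ≤ b) (v : Vtx) (V : Finset Vtx) (i : ℕ) :
    ∑ w ∈ V, ind (Near b v w i) ≤ 81 * ((b : ℝ) ^ (i + 1)) ^ 2 := by
  classical
  have h0 : ∑ w ∈ V, ind (Near b v w i) = ((V.filter (fun w => Near b v w i)).card : ℝ) := by
    rw [Finset.card_filter]
    push_cast
    apply Finset.sum_congr rfl
    intro w _
    by_cases h : Near b v w i
    · rw [ind_of h, if_pos h]
    · rw [ind_not_of h, if_neg h]
  rw [h0]
  have hsub : V.filter (fun w => Near b v w i) ⊆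
      Icc (v.1 - 4 * (b : ℤ) ^ (i + 1)) (v.1 + 4 * (b : ℤ) ^ (i + 1)) ×ˢ
      Icc (v.2 - 4 * (b : ℤ) ^ (i + 1)) (v.2 + 4 * (b : ℤ) ^ (i + 1)) := by
    intro w hw
    rw [Finset.mem_filter] at hw
    rw [Finset.mem_product, Finset.mem_Icc, Finset.mem_Icc]
    have h1 := abs_le.1 hw.2.1
    have h2 := abs_le.1 hw.2.2
    constructor <;> constructor <;> linarith
  have h1 := Finset.card_le_card hsub
  rw [Finset.card_product, Int.card_Icc, Int.card_Icc] at h1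
  have h2 : ∀ z : ℤ, (z + 4 * (b : ℤ) ^ (i + 1) + 1 - (z - 4 * (b : ℤ) ^ (i + 1))).toNat
      = 8 * b ^ (i + 1) + 1 := by
    intro z
    have : z + 4 * (b : ℤ) ^ (i + 1) + 1 - (z - 4 * (b : ℤ) ^ (i + 1))
        = ((8 * b ^ (i + 1) + 1 : ℕ) : ℤ) := by push_cast; ring
    rw [this, Int.toNat_natCast]
  rw [h2, h2] at h1
  have h3 : (((V.filter (fun w => Near b v w i)).card : ℕ) : ℝ) ≤
      (((8 * b ^ (i + 1) + 1) * (8 * b ^ (i + 1) + 1) : ℕ) : ℝ) := by exact_mod_cast h1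
  refine h3.trans ?_
  have h4 : (1 : ℝ) ≤ (b : ℝ) ^ (i + 1) := one_le_pow₀ (by exact_mod_cast (by omega : 1 ≤ b))
  push_cast
  nlinarith

theorem row_bound (hb : 2 ≤ b) (v : Vtx) (V : Finset Vtx) (J : ℕ) (C : ℕ → ℝ)
    (hC : ∀ i, 0 ≤ C i) (f : Vtx → ℝ) (hf : ∀ w ∈ V, ∃ i < J, Near b v w i ∧ f w ≤ C i) :
    ∑ w ∈ V, f w ≤ ∑ i ∈ range J, (81 * ((b : ℝ) ^ (i + 1)) ^ 2) * C i := by
  have h1 : ∀ w ∈ V, f w ≤ ∑ i ∈ range J, ind (Near b v w i) * C i := by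
    intro w hw
    obtain ⟨i, hi, hn, hle⟩ := hf w hw
    have h5 : ind (Near b v w i) * C i ≤ ∑ i ∈ range J, ind (Near b v w i) * C i :=
      Finset.single_le_sum (f := fun i => ind (Near b v w i) * C i)
        (fun j _ => mul_nonneg (ind_nonneg _) (hC j)) (Finset.mem_range.2 hi)
    rw [ind_of hn, one_mul] at h5
    exact hle.trans h5
  have h2 := Finset.sum_le_sum h1
  rw [Finset.sum_comm] at h2
  refine h2.trans (Finset.sum_le_sum fun i _ => ?_)
  have h3 : ∑ w ∈ V, ind (Near b v w i) * C i = (∑ w ∈ V, ind (Near b v w i)) * C i :=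
    (Finset.sum_mul _ _ _).symm
  rw [h3]
  exact mul_le_mul_of_nonneg_right (near_sum hb v V i) (hC i)

theorem term_bound {B c P : ℝ} (hB : 0 < B) (hc0 : 0 < c) (hc2 : c ≤ B ^ 2) {i J : ℕ}
    (hi : i < J) : (81 * (B ^ (i + 1)) ^ 2) * (P ^ 2 * (c ^ (J - i) * c ^ 2)) ≤
      (81 * B ^ 2 * c ^ 2) * ((B ^ J) ^ 2 * P ^ 2) := by
  have h4 : c ^ (J - i) ≤ (B ^ 2) ^ (J - i) := pow_le_pow_left₀ hc0.le hc2 _
  have h5 : (B ^ (i + 1)) ^ 2 = (B ^ 2) ^ i * B ^ 2 := by ring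
  have h6 : (B ^ 2) ^ i * (B ^ 2) ^ (J - i) = (B ^ J) ^ 2 := by
    rw [← pow_add, Nat.add_sub_cancel' hi.le, ← pow_mul, ← pow_mul, mul_comm]
  have h7 : (B ^ 2) ^ i * c ^ (J - i) ≤ (B ^ J) ^ 2 := by
    rw [← h6]
    exact mul_le_mul_of_nonneg_left h4 (by positivity)
  calc (81 * (B ^ (i + 1)) ^ 2) * (P ^ 2 * (c ^ (J - i) * c ^ 2))
      = (81 * B ^ 2 * c ^ 2 * P ^ 2) * ((B ^ 2) ^ i * c ^ (J - i)) := by
        rw [h5]; ring
    _ ≤ (81 * B ^ 2 * c ^ 2 * P ^ 2) * (B ^ J) ^ 2 :=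
        mul_le_mul_of_nonneg_left h7 (by positivity)
    _ = (81 * B ^ 2 * c ^ 2) * ((B ^ J) ^ 2 * P ^ 2) := by ring

theorem low_bound {B c j : ℝ} (hB : 0 < B) (hc0 : 0 < c) (hc2 : c ≤ B ^ 2) (hj : 1 ≤ j)
    (hjB : 324 * j ≤ B) : B ^ (-7 : ℝ) ≤ 1 / (4 * (81 * j * B ^ 2 * c ^ 2)) := by
  have h1 : B ^ (-7 : ℝ) = 1 / B ^ 7 := by
    rw [Real.rpow_neg hB.le, one_div]
    congr 1
    exact_mod_cast Real.rpow_natCast B 7
  rw [h1]
  apply one_div_le_one_div_of_le (by positivity)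
  have h3 : c ^ 2 ≤ (B ^ 2) ^ 2 := pow_le_pow_left₀ hc0.le hc2 2
  calc 4 * (81 * j * B ^ 2 * c ^ 2) = (324 * j) * (B ^ 2 * c ^ 2) := by ring
    _ ≤ B * (B ^ 2 * (B ^ 2) ^ 2) :=
        mul_le_mul hjB (mul_le_mul_of_nonneg_left h3 (by positivity)) (by positivity) hB.le
    _ = B ^ 7 := by ring

theorem t_SEC1 (hG : Geo N) : Blk N := by
  classical
  intro J hJ g hg0 hg2
  refine ⟨324 * J, fun b hb Q hQ S hS => ?_⟩
  have hb2 : 2 ≤ b := by omega
  have hbR : (2 : ℝ) ≤ b := by exact_mod_cast hb2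
  have hb0 : (0 : ℝ) < b := by linarith
  set c : ℝ := (b : ℝ) ^ g with hc
  have hc1 : 1 ≤ c := Real.one_le_rpow (by linarith) hg0
  have hc2 : c ≤ (b : ℝ) ^ 2 := by
    rw [hc, ← Real.rpow_natCast]
    exact Real.rpow_le_rpow_of_exponent_le (by linarith) (by push_cast; linarith)
  have hp0 : ∀ j, 0 ≤ pj N b Q j := pj_nonneg b Q
  have hp : ∀ j < J, 1 ≤ c * pj N b Q j := by
    intro j hj
    have h1 : (b : ℝ) ^ (-g) ≤ pj N b Q j := hQ j hj
    have h2 : c * (b : ℝ) ^ (-g) = 1 := by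
      rw [hc, ← Real.rpow_add hb0, add_neg_cancel, Real.rpow_zero]
    rw [← h2]
    exact mul_le_mul_of_nonneg_left h1 (by linarith)
  set P : ℝ := ∏ j ∈ range J, pj N b Q j with hP
  have hP1 : 1 ≤ c ^ J * P := by
    have h1 := prod_one hp 0
    rwa [Nat.sub_zero, ← Finset.range_eq_Ico] at h1
  have hP0 : 0 ≤ P := Finset.prod_nonneg fun j _ => hp0 j
  have hPpos : 0 < P := by
    rcases hP0.eq_or_lt with h | h
    · rw [← h, mul_zero] at hP1
      linarith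
    · exact h
  have hbJ : 0 < (b : ℝ) ^ J := by positivity
  set m : ℝ := ((b : ℝ) ^ J) ^ 2 * P with hm
  have hmpos : 0 < m := by positivity
  have hJR : (1 : ℝ) ≤ J := by exact_mod_cast hJ
  set K : ℝ := 81 * J * (b : ℝ) ^ 2 * c ^ 2 with hK
  have hcpos : 0 < c := by linarith
  have hKpos : 0 < K := by positivity
  have hbox : ∀ v ∈ blk b J, bx v (2 * (b : ℤ) ^ J) ⊆ S := by
    intro v hv
    rw [blk_mem] at hv
    refine (bx_sub (w := (0, 0)) ?_ ?_).trans hS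
    · simp only [sub_zero]
      rw [abs_of_nonneg hv.1.1]
      linarith [hv.1.2]
    · simp only [sub_zero]
      rw [abs_of_nonneg hv.2.1]
      linarith [hv.2.2]
  have hcnt : ∀ F, (cnt N b J Q (blk b J) F : ℝ) = ∑ v ∈ blk b J, ind (Gd N b J Q v F) := by
    intro F
    unfold cnt
    rw [Finset.card_filter]
    push_cast
    apply Finset.sum_congr rfl
    intro v _
    by_cases h : Gd N b J Q v F
    · rw [ind_of h, if_pos h]
    · rw [ind_not_of h, if_neg h]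
  have hE1 : Ex P2 S (fun F => (cnt N b J Q (blk b J) F : ℝ)) = m := by
    rw [Ex_congr (fun F _ => hcnt F), Ex_sum]
    have h1 : ∀ v ∈ blk b J, Ex P2 S (fun F => ind (Gd N b J Q v F)) = P :=
      fun v hv => one_point hG hb2 Q S v (hbox v hv)
    rw [Finset.sum_congr rfl h1, Finset.sum_const, nsmul_eq_mul, blk_card]
  have hE2 : Ex P2 S (fun F => (cnt N b J Q (blk b J) F : ℝ) ^ 2) ≤ K * m ^ 2 := by
    have h1 : Ex P2 S (fun F => (cnt N b J Q (blk b J) F : ℝ) ^ 2) =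
        ∑ v ∈ blk b J, ∑ w ∈ blk b J,
          Pr P2 S (fun F => Gd N b J Q v F ∧ Gd N b J Q w F) := by
      rw [Ex_congr (g := fun F => ∑ v ∈ blk b J, ∑ w ∈ blk b J,
        ind (Gd N b J Q v F ∧ Gd N b J Q w F))]
      · rw [Ex_sum]
        apply Finset.sum_congr rfl
        intro v _
        rw [Ex_sum]
        rfl
      · intro F _
        rw [hcnt, sq, Finset.sum_mul_sum]
        apply Finset.sum_congr rfl
        intro v _
        apply Finset.sum_congr rfl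
        intro w _
        rw [ind_and]
    rw [h1]
    have h2 : ∀ v ∈ blk b J, ∑ w ∈ blk b J,
        Pr P2 S (fun F => Gd N b J Q v F ∧ Gd N b J Q w F) ≤
        ∑ i ∈ range J, (81 * ((b : ℝ) ^ (i + 1)) ^ 2) * (P ^ 2 * (c ^ (J - i) * c ^ 2)) := by
      intro v hv
      refine row_bound hb2 v (blk b J) J (fun i => P ^ 2 * (c ^ (J - i) * c ^ 2))
        (fun i => mul_nonneg (sq_nonneg P) (mul_nonneg (pow_nonneg hcpos.le _) (sq_nonneg c))) _
        fun w hw => ?_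
      obtain ⟨i, hi, hi1, hi2, hi3⟩ := exists_scale hJ hv hw
      have h3 := two_point hG hb2 Q S v w (hbox v hv) (hbox w hw) i hi hi1 hi2 hi3
      have h4 := prod_bound hc1 hp0 hp i hi
      exact ⟨i, hi, ⟨hi1, hi2⟩, h3.trans h4⟩
    have h3 : ∀ i ∈ range J, (81 * ((b : ℝ) ^ (i + 1)) ^ 2) * (P ^ 2 * (c ^ (J - i) * c ^ 2)) ≤
        (81 * (b : ℝ) ^ 2 * c ^ 2) * (((b : ℝ) ^ J) ^ 2 * P ^ 2) :=
      fun i hi => term_bound hb0 hcpos hc2 (Finset.mem_range.1 hi)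
    calc ∑ v ∈ blk b J, ∑ w ∈ blk b J, Pr P2 S (fun F => Gd N b J Q v F ∧ Gd N b J Q w F)
        ≤ ∑ v ∈ blk b J, (J : ℝ) * ((81 * (b : ℝ) ^ 2 * c ^ 2) * (((b : ℝ) ^ J) ^ 2 * P ^ 2)) := by
          apply Finset.sum_le_sum
          intro v hv
          refine (h2 v hv).trans ((Finset.sum_le_sum h3).trans ?_)
          rw [Finset.sum_const, Finset.card_range, nsmul_eq_mul]
      _ = K * m ^ 2 := by
          rw [Finset.sum_const, nsmul_eq_mul, blk_card, hK, hm]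
          ring
  have hfin := paley P2 ok2 S (fun F => (cnt N b J Q (blk b J) F : ℝ)) m K hmpos hKpos hE1.ge hE2
  have hlow : (b : ℝ) ^ (-7 : ℝ) ≤ 1 / (4 * K) :=
    low_bound hb0 hcpos hc2 hJR (by exact_mod_cast hb)
  have hm2 : (b : ℝ) ^ ((2 - g) * J) ≤ m := by
    have h1 : (b : ℝ) ^ ((2 - g) * J) * c ^ J = ((b : ℝ) ^ J) ^ 2 := by
      rw [hc, ← Real.rpow_natCast ((b : ℝ) ^ g) J, ← Real.rpow_mul hb0.le, ← Real.rpow_add hb0,
        ← pow_mul, ← Real.rpow_natCast (b : ℝ) (J * 2)]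
      congr 1
      push_cast
      ring
    have h2 : 0 < (b : ℝ) ^ ((2 - g) * J) := Real.rpow_pos_of_pos hb0 _
    calc (b : ℝ) ^ ((2 - g) * J) ≤ (b : ℝ) ^ ((2 - g) * J) * (c ^ J * P) :=
          le_mul_of_one_le_right h2.le hP1
      _ = ((b : ℝ) ^ ((2 - g) * J) * c ^ J) * P := by ring
      _ = m := by rw [h1]
  refine hlow.trans (hfin.trans (Pr_mono ok2 ?_))
  intro F _ hF
  have h1 : (b : ℝ) ^ ((2 - g) * J) / 2 ≤ m / 2 := by linarith
  exact h1.trans hF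

end Pool.Agent.W605.EN
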